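import Mathlib
import Pool.Agent.H686R3.LatticeFO

/-!
# Sublattices of subspace lattices over division rings are not finitely axiomatizable

Let `E` be a nonprincipal ultraproduct of the prime fields `ℤ/p`, a field of characteristic zero.
For every prime `p` the lattice `Sub((ℤ/p)³) × Sub(E³)` does not embed into the lattice of subspaces
of any vector space over any division ring, because the first factor forces the characteristic of
the division ring to be `p` and the second one forces it to be zero. A nonprincipal ultraproduct of
these lattices embeds into the lattice of subspaces of a vector space over an ultrapower of `E`.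
So no finite set of first-order sentences axiomatizes the class.
-/

set_option autoImplicit false

namespace Pool.Agent.Results.MP_d4b74c_al.NotFinitelyAxiomatizable

open FirstOrder Filter Pool.Agent.H686R3

universe v w

/-- `L` belongs to the class `K`: there are a division ring `D` (not necessarily commutative), a
left vector space `V` over `D` (of any dimension, finite or infinite) and an injective map from `L`
to the lattice of all `D`-subspaces of `V` which preserves binary joins and meets. -/
def InClass (L : Type) [Lattice L] : Prop :=
  ∃ (D : Type v) (_ : DivisionRing D) (V : Type w) (_ : AddCommGroup V) (_ : Module D V)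
    (f : LatticeHom L (Submodule D V)), Function.Injective f

section lift

variable {F : Type} [Field F] {W : Type} [AddCommGroup W] [Module F W]

/-- a subspace, placed in other universes -/
def up (S : Submodule F W) : Submodule (ULift.{v} F) (ULift.{w} W) where
  carrier := {x | x.down ∈ S}
  add_mem' := fun ha hb => S.add_mem ha hb
  zero_mem' := S.zero_mem
  smul_mem' := fun c _ hx => S.smul_mem c.down hx

/-- a subspace, taken back to the lowest universe -/
def down (S : Submodule (ULift.{v} F) (ULift.{w} W)) : Submodule F W where
  carrier := {x | ULift.up x ∈ S}
  add_mem' := fun ha hb => S.add_mem ha hb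
  zero_mem' := S.zero_mem
  smul_mem' := fun c _ hx => S.smul_mem (ULift.up c) hx

/-- lifting subspaces to other universes is an isomorphism of lattices -/
def liftIso : Submodule F W ≃o Submodule (ULift.{v} F) (ULift.{w} W) where
  toFun := up
  invFun := down
  left_inv := fun _ => rfl
  right_inv := fun _ => rfl
  map_rel_iff' := by
    intro a b
    constructor
    · intro h x hx
      exact @h (ULift.up x) hx
    · intro h x hx
      exact h hx

/-- the same map, as a lattice homomorphism -/
def liftHom : LatticeHom (Submodule F W) (Submodule (ULift.{v} F) (ULift.{w} W)) where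
  toFun := liftIso.{v, w}
  map_sup' := fun a b => map_sup liftIso.{v, w} a b
  map_inf' := fun a b => map_inf liftIso.{v, w} a b

end lift

/-- **No finite set of first-order sentences specifies the class `K`** of all lattices isomorphic
to a sublattice of the lattice of subspaces of a vector space over a division ring. -/
theorem result :
    ¬ ∃ Sg : Set latLang.Sentence, Sg.Finite ∧
      ∀ (L : Type) [Lattice L], InClass.{v, w} L ↔ ∀ φ ∈ Sg, L ⊨ φ := by
  rintro ⟨Sg, hfin, hSg⟩
  have h : ∀ φ ∈ Sg, ∀ᶠ i in (UU : Filter ℕ), LL i ⊨ φ := by
    intro φ hφ
    refine core φ fun M _ hM => (hSg M).mp ?_ φ hφ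
    obtain ⟨F, _, V, _, _, f, hf⟩ := hM
    refine ⟨ULift.{v} F, inferInstance, ULift.{w} V, inferInstance, inferInstance,
      liftHom.{v, w}.comp f, ?_⟩
    exact (OrderIso.injective (liftIso.{v, w} (F := F) (W := V))).comp hf
  have h2 : ∀ᶠ i in (UU : Filter ℕ), ∀ φ ∈ Sg, LL i ⊨ φ :=
    (Filter.eventually_all_finite hfin).mpr h
  obtain ⟨i, hi⟩ := h2.exists
  obtain ⟨D, _, V, _, _, f, hf⟩ := (hSg (LL i)).mpr hi
  exact LL_not_embeds i f hf

end Pool.Agent.Results.MP_d4b74c_al.NotFinitelyAxiomatizable
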